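import Pool.Agent.Lib.MP_1c8e06_ag.AJ.Defs7

set_option autoImplicit false

open Polynomial
open scoped Classical

namespace Pool.Agent.MP_1c8e06_ag.AL

noncomputable section

/-- The group `SL_2(F_p)`. -/
abbrev SL2 (p : ℕ) : Type := Matrix.SpecialLinearGroup (Fin 2) (ZMod p)

/-- The element `(1 1; 0 1)` of `SL_2(F_p)`. -/
def eSL (p : ℕ) : SL2 p := ⟨!![1, 1; 0, 1], by simp⟩

/-- The element `(0 -1; 1 0)` of `SL_2(F_p)`. -/
def wSL (p : ℕ) : SL2 p := ⟨!![0, -1; 1, 0], by simp⟩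

end

end Pool.Agent.MP_1c8e06_ag.AL
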