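import Pool.Agent.Lib.MP_1c8e06_ag.Mg.G072
import Pool.Agent.Lib.MP_1c8e06_ag.Mg.G073
import Pool.Agent.Lib.MP_1c8e06_ag.AJ.Gb2
import Pool.Agent.Lib.MP_1c8e06_ag.Mg.G056

set_option autoImplicit false

open Polynomial
open scoped Classical

namespace Pool.Agent.MP_1c8e06_ag.AL

noncomputable section

/-!
# Task CR3: the criterion for all `p`-subgroups (assembly)

Proof.
* `crit_general`: `P' := (Q.comp i).range` (a subgroup of `K`, as a type), `i' := P'.subtype`, `q := (Q.comp i).rangeRestrict : P →* P'`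
  (surjective), `P'` is a `p`-group.  `x' := q x : P'`, `orderOf x' = p`, central in `P'` by `hxc`.  `I := Subgroup.zpowers x'` (a subgroup of
  `P'`, as a type), `j := I.subtype`, `Nat.card I = p` (`Nat.card_zpowers`), generator `u₀ := ⟨x', _⟩`.  `crit` for `u₀` and
  `i'.comp j` (`(i'.comp j) u₀ = Q (i x)`): `RE p k (i'.comp j) ⊤`.  `AJ.re_up`: `RE p k i' (⊤ ⊔ _) = RE p k i' ⊤`.  `AJ.re_lift`:
  `RE p k i ⊤`.
* `crit_realised`: `crit_general` for `i := P.subtype`, `Q := QuotientGroup.mk' N` and `AJ.realised_of_RE` (`AJ/R7.lean`), as in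
  `AJ/Fin.lean` (`Fintype` instances from `Finite`).
-/

theorem crit_general {p : ℕ} [hp : Fact p.Prime] {k : Type} [Field k] [IsAlgClosed k] [CharP k p]
    {P G K : Type} [Group P] [Fintype P] [Group G] [Fintype G] [Group K] [Fintype K]
    (hP : IsPGroup p P) (i : P →* G) (hi : Function.Injective i)
    (hgen : Subgroup.normalClosure (i.range : Set G) = ⊤) (Q : G →* K)
    (hQ : Function.Surjective Q) (hker : IsPGroup p Q.ker) (x : P) (hx : orderOf (Q (i x)) = p)
    (hxc : ∀ y : P, Q (i y) * Q (i x) = Q (i x) * Q (i y)) (φ : SL2 p →* K) (v : K)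
    (hv : ∀ g, v * φ g = φ g * v) (huv : Q (i x) = φ (eSL p) * v)
    (hnc : ∃ g, φ g * φ (eSL p) ≠ φ (eSL p) * φ g)
    (hK : Subgroup.closure (Set.range φ ∪ {y | y * Q (i x) = Q (i x) * y}) = ⊤)
    (hncl : Subgroup.normalClosure ({Q (i x)} : Set K) = ⊤) : AJ.RE p k i ⊤ := by
  let P' : Subgroup K := (Q.comp i).range
  letI : Fintype P' := Fintype.ofFinite P'
  let q : P →* P' := (Q.comp i).rangeRestrict
  have hq : Function.Surjective q := (Q.comp i).rangeRestrict_surjective
  have hP' : IsPGroup p P' := hP.of_surjective q hq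
  have hi' : Function.Injective P'.subtype := P'.subtype_injective
  let x' : P' := q x
  have hx'o : orderOf x' = p := by
    rw [← hx]
    exact (Subgroup.orderOf_coe x').symm
  have hx'c : ∀ y : P', y * x' = x' * y := by
    intro y
    obtain ⟨z, rfl⟩ := hq y
    exact Subtype.ext (hxc z)
  let I : Subgroup P' := Subgroup.zpowers x'
  letI : Fintype I := Fintype.ofFinite I
  have hI : Nat.card I = p := by rw [← hx'o]; exact Nat.card_zpowers x'
  let u₀ : I := ⟨x', Subgroup.mem_zpowers x'⟩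
  have hu₀ : orderOf u₀ = p := by
    rw [← hx'o]
    exact (Subgroup.orderOf_coe u₀).symm
  have hgenI : ∀ u : I, ∃ n : ℕ, u = u₀ ^ n := by
    intro u
    obtain ⟨n, hn⟩ := (mem_powers_iff_mem_zpowers.2 u.2)
    refine ⟨n, Subtype.ext ?_⟩
    rw [Subgroup.coe_pow]
    exact hn.symm
  have hj : Function.Injective I.subtype := I.subtype_injective
  have h1 : AJ.RE p k (P'.subtype.comp I.subtype) ⊤ :=
    crit u₀ hu₀ hgenI (P'.subtype.comp I.subtype) (hi'.comp hj) φ v hv huv hnc hK hncl
  have hc : ∀ (u : I) (v : P'), v * I.subtype u = I.subtype u * v := by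
    intro u v
    obtain ⟨n, rfl⟩ := hgenI u
    rw [map_pow]
    exact (Commute.pow_right (hx'c v) n : Commute v (x' ^ n))
  have h2 := AJ.re_up hP' P'.subtype hi' I.subtype hj hI hc ⊤ h1
  rw [top_sup_eq] at h2
  exact AJ.re_lift hP i hi hgen Q hQ hker q hq P'.subtype hi' (fun u => rfl) h2

theorem crit_realised {p : ℕ} [hp : Fact p.Prime] (k : Type) [Field k] [IsAlgClosed k] [CharP k p]
    {G : Type} [Group G] [Finite G] (N : Subgroup G) [N.Normal] (hN : IsPGroup p N)
    (P : Subgroup G) (hP : IsPGroup p P) (hgen : Subgroup.normalClosure (P : Set G) = ⊤)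
    (x : G) (hxP : x ∈ P) (hx : orderOf (QuotientGroup.mk' N x) = p)
    (hxc : ∀ y ∈ P, QuotientGroup.mk' N (y * x) = QuotientGroup.mk' N (x * y))
    (φ : SL2 p →* G ⧸ N) (v : G ⧸ N) (hv : ∀ g, v * φ g = φ g * v)
    (huv : QuotientGroup.mk' N x = φ (eSL p) * v)
    (hnc : ∃ g, φ g * φ (eSL p) ≠ φ (eSL p) * φ g)
    (hK : Subgroup.closure (Set.range φ ∪ {y | y * QuotientGroup.mk' N x =
      QuotientGroup.mk' N x * y}) = ⊤)
    (hncl : Subgroup.normalClosure ({QuotientGroup.mk' N x} : Set (G ⧸ N)) = ⊤) :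
    AI.Realised k G P := by
  letI : Fintype G := Fintype.ofFinite G
  letI : Fintype P := Fintype.ofFinite P
  letI : Fintype (G ⧸ N) := Fintype.ofFinite (G ⧸ N)
  have h1 : (P.subtype).range = P := P.range_subtype
  have h2 : AJ.RE p k P.subtype ⊤ := by
    refine crit_general hP P.subtype P.subtype_injective (by rw [h1]; exact hgen)
      (QuotientGroup.mk' N) (QuotientGroup.mk'_surjective N) ?_ ⟨x, hxP⟩ hx ?_ φ v hv huv hnc hK
      hncl
    · rw [QuotientGroup.ker_mk']
      exact hN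
    · intro y
      have := hxc y y.2
      rw [map_mul, map_mul] at this
      exact this
  have h3 := AJ.realised_of_RE hP P.subtype h2
  rwa [h1] at h3

end

end Pool.Agent.MP_1c8e06_ag.AL
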