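import Pool.Agent.Lib.MP_1c8e06_ag.Mg.G083
import Pool.Agent.Lib.MP_1c8e06_ag.AL.CR3

set_option autoImplicit false

namespace Pool.Agent.MP_1c8e06_ag.AL

noncomputable section

/-!
# Task FinSL: the theorem for `SL_n(F)` (assembly)

Proof.  `K := G ⧸ N`, a finite group, nontrivial (`hK`; for instance because `SL_n(F)` with `n ≥ 2` is not commutative and `ψ.ker` is central).
The image `P'` of `P` in `K` is a `p`-group, and it is not trivial: otherwise the normal subgroup `N` contains `P`, hence everything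
(`hgen`), and `K` is trivial.  So its center is nontrivial (`IsPGroup.center_nontrivial`) and contains an element of order `p`
(`exists_prime_orderOf_dvd_card'`, the center is a nontrivial `p`-group: see `AJ/Ga.lean`); it is the image of some `x ∈ P`.
`SLn_quot` for it; `crit_realised`.
-/

theorem SLn_nontrivial {F : Type} [Field F] (n : ℕ) (hn : 2 ≤ n) {K : Type} [Group K]
    (ψ : Matrix.SpecialLinearGroup (Fin n) F →* K) (hψ : Function.Surjective ψ)
    (hker : ψ.ker ≤ Subgroup.center (Matrix.SpecialLinearGroup (Fin n) F)) : Nontrivial K := by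
  by_contra hK
  rw [not_nontrivial_iff_subsingleton] at hK
  have hi : (⟨0, by omega⟩ : Fin n) ≠ ⟨1, by omega⟩ := by
    intro h
    exact absurd (congrArg Fin.val h) (by norm_num)
  let A : Matrix.SpecialLinearGroup (Fin n) F :=
    ⟨Matrix.transvection ⟨0, by omega⟩ ⟨1, by omega⟩ 1, Matrix.det_transvection_of_ne _ _ hi 1⟩
  have hA : A ∈ Subgroup.center (Matrix.SpecialLinearGroup (Fin n) F) :=
    hker (MonoidHom.mem_ker.2 (Subsingleton.elim _ _))
  obtain ⟨r, -, hr⟩ := Matrix.SpecialLinearGroup.mem_center_iff.1 hA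
  have h1 := congrFun (congrFun hr ⟨0, by omega⟩) ⟨1, by omega⟩
  rw [Matrix.scalar_apply, Matrix.diagonal_apply_ne _ hi] at h1
  have h2 : (A : Matrix (Fin n) (Fin n) F) ⟨0, by omega⟩ ⟨1, by omega⟩ = 1 := by
    change Matrix.transvection _ _ _ _ _ = _
    unfold Matrix.transvection
    rw [Matrix.add_apply, Matrix.one_apply_ne hi, Matrix.single_apply_same, zero_add]
  rw [h2] at h1
  exact zero_ne_one h1

theorem SLn_realised {p : ℕ} [hp : Fact p.Prime] (k : Type) [Field k] [IsAlgClosed k] [CharP k p]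
    {F : Type} [Field F] [Finite F] [CharP F p] (n : ℕ) (hn : 2 ≤ n)
    {G : Type} [Group G] [Finite G] (N : Subgroup G) [N.Normal] (hN : IsPGroup p N)
    (ψ : Matrix.SpecialLinearGroup (Fin n) F →* G ⧸ N) (hψ : Function.Surjective ψ)
    (hker : ψ.ker ≤ Subgroup.center (Matrix.SpecialLinearGroup (Fin n) F))
    (P : Subgroup G) (hP : IsPGroup p P) (hgen : Subgroup.normalClosure (P : Set G) = ⊤) :
    AI.Realised k G P := by
  have hK : Nontrivial (G ⧸ N) := SLn_nontrivial n hn ψ hψ hker
  have hP' : IsPGroup p (P.map (QuotientGroup.mk' N)) := hP.map _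
  have hnt : Nontrivial (P.map (QuotientGroup.mk' N)) := by
    rw [Subgroup.nontrivial_iff_ne_bot]
    intro h
    have h1 : P ≤ N := by
      rw [Subgroup.map_eq_bot_iff, QuotientGroup.ker_mk'] at h
      exact h
    have h2 : (⊤ : Subgroup G) ≤ N := by
      rw [← hgen]
      exact Subgroup.normalClosure_le_normal h1
    obtain ⟨a, b, hab⟩ := hK
    obtain ⟨a', rfl⟩ := QuotientGroup.mk_surjective a
    obtain ⟨b', rfl⟩ := QuotientGroup.mk_surjective b
    exact hab (QuotientGroup.eq.2 (h2 (Subgroup.mem_top _)))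
  have hcen : Nontrivial (Subgroup.center (P.map (QuotientGroup.mk' N))) := hP'.center_nontrivial
  have hcp : IsPGroup p (Subgroup.center (P.map (QuotientGroup.mk' N))) := hP'.to_subgroup _
  obtain ⟨m, hm, hcard⟩ := hcp.nontrivial_iff_card.1 hcen
  have hdvd : p ∣ Nat.card (Subgroup.center (P.map (QuotientGroup.mk' N))) := by
    rw [hcard]
    exact dvd_pow_self p (by omega)
  obtain ⟨y, hy⟩ := exists_prime_orderOf_dvd_card' p hdvd
  have hord : orderOf ((y : P.map (QuotientGroup.mk' N)) : G ⧸ N) = p := by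
    rw [Subgroup.orderOf_coe, Subgroup.orderOf_coe, hy]
  have hc : ∀ v : P.map (QuotientGroup.mk' N), v * (y : P.map (QuotientGroup.mk' N)) =
    (y : P.map (QuotientGroup.mk' N)) * v := Subgroup.mem_center_iff.1 y.2
  obtain ⟨x, hxP, hxy⟩ := (Subgroup.mem_map).1 (y : P.map (QuotientGroup.mk' N)).2
  rw [← hxy] at hord
  obtain ⟨φ, v, hv, huv, hnc, hcl, hncl⟩ := SLn_quot n ψ hψ hker (QuotientGroup.mk' N x) hord
  refine crit_realised k N hN P hP hgen x hxP hord ?_ φ v hv huv hnc hcl hncl
  intro z hz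
  have h3 := congrArg (fun w : P.map (QuotientGroup.mk' N) => (w : G ⧸ N))
    (hc ⟨QuotientGroup.mk' N z, Subgroup.mem_map_of_mem _ hz⟩)
  simp only [Subgroup.coe_mul] at h3
  rw [← hxy] at h3
  rw [map_mul, map_mul]
  exact h3

end

end Pool.Agent.MP_1c8e06_ag.AL
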